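import Mathlib

/-!
The relation `(s^t)⁻¹ s (s^t) = s²` (with `s^t = t s t⁻¹`) kills `s` in every finite and in every
solvable quotient.
-/

set_option autoImplicit false

open scoped commutatorElement

namespace Pool.Agent.WOne

theorem not_dvd_two_pow_sub_one {n : ℕ} (hn : 1 < n) : ¬ n ∣ 2 ^ n - 1 := by
  intro h
  set p := n.minFac with hp
  have hpp : p.Prime := Nat.minFac_prime (by omega)
  have := Fact.mk hpp
  have h1 : p ∣ 2 ^ n - 1 := (Nat.minFac_dvd n).trans h
  have h2 : (2 : ZMod p) ^ n = 1 := by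
    have h3 : ((2 ^ n - 1 : ℕ) : ZMod p) = 0 := (ZMod.natCast_eq_zero_iff _ _).mpr h1
    rw [Nat.cast_sub Nat.one_le_two_pow] at h3
    push_cast at h3
    exact sub_eq_zero.mp h3
  have hp2 : (2 : ZMod p) ≠ 0 := by
    intro h0
    rw [h0, zero_pow (by omega)] at h2
    exact zero_ne_one h2
  have h4 : (2 : ZMod p) ^ (p - 1) = 1 := ZMod.pow_card_sub_one_eq_one hp2
  have h5 : orderOf (2 : ZMod p) ∣ n := orderOf_dvd_of_pow_eq_one h2
  have h6 : orderOf (2 : ZMod p) ∣ p - 1 := orderOf_dvd_of_pow_eq_one h4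
  have h7 : Nat.Coprime n (p - 1) := by
    rw [Nat.coprime_comm]
    apply Nat.Coprime.symm
    apply Nat.coprime_of_lt_minFac
    · have := hpp.two_le
      omega
    · rw [← hp]
      have := hpp.two_le
      omega
  have h8 : orderOf (2 : ZMod p) = 1 := Nat.eq_one_of_dvd_coprimes h7 h5 h6
  rw [orderOf_eq_one_iff] at h8
  have h9 : (1 : ZMod p) = 0 := by
    linear_combination h8
  exact one_ne_zero h9

theorem finite_kill {Q : Type*} [Group Q] [Finite Q] (a t : Q)
    (h : (t * a * t⁻¹)⁻¹ * a * (t * a * t⁻¹) = a ^ 2) : a = 1 := by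
  set b : Q := t * a * t⁻¹ with hb
  have h1 : ∀ k : ℕ, (b ^ k)⁻¹ * a * b ^ k = a ^ (2 ^ k) := by
    intro k
    induction k with
    | zero => simp
    | succ k ih =>
      have h2 : (b ^ (k + 1))⁻¹ * a * b ^ (k + 1) = b⁻¹ * ((b ^ k)⁻¹ * a * b ^ k) * b := by
        rw [pow_succ, mul_inv_rev]
        group
      rw [h2, ih]
      have h3 : b⁻¹ * a ^ (2 ^ k) * b = (b⁻¹ * a * b) ^ (2 ^ k) := by
        have := conj_pow (i := 2 ^ k) (a := b⁻¹) (b := a)
        rw [inv_inv] at this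
        exact this.symm
      rw [h3, h, ← pow_mul, ← pow_succ']
  have h2 : b ^ orderOf a = 1 := by
    rw [hb, conj_pow, pow_orderOf_eq_one, mul_one, mul_inv_cancel]
  have h3 := h1 (orderOf a)
  rw [h2, inv_one, one_mul, mul_one] at h3
  have h4 : a ^ (2 ^ orderOf a - 1) = 1 := by
    have h5 : a ^ (2 ^ orderOf a - 1) * a = a := by
      rw [← pow_succ, Nat.sub_add_cancel Nat.one_le_two_pow]
      exact h3.symm
    exact mul_eq_right.mp h5
  have h5 : orderOf a ∣ 2 ^ orderOf a - 1 := orderOf_dvd_of_pow_eq_one h4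
  have h6 : ¬ 1 < orderOf a := fun hlt => not_dvd_two_pow_sub_one hlt h5
  have h7 : 0 < orderOf a := orderOf_pos a
  rw [← orderOf_eq_one_iff]
  omega

theorem solvable_kill {Q : Type*} [Group Q] [Group.IsSolvable Q] (S : Set Q) (t : Q)
    (h : ∀ s ∈ S, (t * s * t⁻¹)⁻¹ * s * (t * s * t⁻¹) = s ^ 2) : ∀ s ∈ S, s = 1 := by
  set M : Subgroup Q := Subgroup.normalClosure S with hM
  have hMn : M.Normal := Subgroup.normalClosure_normal
  have hSM : S ⊆ M := Subgroup.subset_normalClosure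
  have h1 : M ≤ ⁅M, M⁆ := by
    apply Subgroup.normalClosure_le_normal
    intro s hs
    show s ∈ ⁅M, M⁆
    have h2 : s = ⁅s⁻¹, (t * s * t⁻¹)⁻¹⁆ := by
      rw [commutatorElement_def, inv_inv, inv_inv]
      have h3 := h s hs
      calc s = s⁻¹ * s ^ 2 := by group
        _ = s⁻¹ * ((t * s * t⁻¹)⁻¹ * s * (t * s * t⁻¹)) := by rw [h3]
        _ = s⁻¹ * (t * s * t⁻¹)⁻¹ * s * (t * s * t⁻¹) := by group
    rw [h2]
    apply Subgroup.commutator_mem_commutator
    · exact M.inv_mem (hSM hs)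
    · exact M.inv_mem (hMn.conj_mem s (hSM hs) t)
  have h2 : ∀ n : ℕ, M ≤ derivedSeries Q n := by
    intro n
    induction n with
    | zero => simp
    | succ n ih =>
      rw [derivedSeries_succ]
      exact h1.trans (Subgroup.commutator_mono ih ih)
  obtain ⟨n, hn⟩ := (Group.isSolvable_def Q).mp inferInstance
  have h3 : M ≤ ⊥ := hn ▸ h2 n
  intro s hs
  exact Subgroup.mem_bot.mp (h3 (hSM hs))

end Pool.Agent.WOne
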