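import Mathlib

/-!
Free families in free products, and the embedding of a group with a free family `s i` in a group
with an element `t` such that `t (s i) t⁻¹` conjugates `s i` to its square.
-/

set_option autoImplicit false

open Monoid

namespace Pool.Agent.WOne

/-- Injective homomorphisms induce an injective homomorphism of the free products. -/
theorem coprod_lift_injective {ι : Type*} {H G : ι → Type*} [∀ i, Group (H i)]
    [∀ i, Group (G i)] (f : ∀ i, H i →* G i) (hf : ∀ i, Function.Injective (f i)) :
    Function.Injective (CoprodI.lift (fun i => (CoprodI.of (M := G) (i := i)).comp (f i)) :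
      CoprodI H →* CoprodI G) := by
  classical
  rw [injective_iff_map_eq_one]
  intro x hx
  set w : CoprodI.Word H := CoprodI.Word.equiv x with hw
  have hxw : w.prod = x := CoprodI.Word.equiv.symm_apply_apply x
  let w' : CoprodI.Word G :=
    { toList := w.toList.map (fun l => ⟨l.1, f l.1 l.2⟩)
      ne_one := by
        intro l hl
        obtain ⟨l0, hl0, rfl⟩ := List.mem_map.mp hl
        intro h
        exact w.ne_one l0 hl0 (hf l0.1 (h.trans (map_one _).symm))
      chain_ne := by
        rw [List.isChain_map]
        exact w.chain_ne }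
  have h1 : w'.prod = 1 := by
    rw [← hx, ← hxw]
    simp only [CoprodI.Word.prod, w', map_list_prod, List.map_map]
    congr 1
  have h2 : w' = CoprodI.Word.empty := by
    have h3 := CoprodI.Word.equiv.right_inv w'
    have h4 := CoprodI.Word.equiv.right_inv (CoprodI.Word.empty : CoprodI.Word G)
    rw [← h3, ← h4]
    congr 1
  have h3 : w.toList = [] := by
    have h4 : w'.toList = [] := by
      rw [h2]
      rfl
    exact List.map_eq_nil_iff.mp h4
  have h4 : w = CoprodI.Word.empty := CoprodI.Word.ext h3
  rw [← hxw, h4, CoprodI.Word.prod_empty]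

/-- Elements of infinite order in the factors of a free product form a free family. -/
theorem free_of_infinite_order {ι : Type*} {G : ι → Type*} [∀ i, Group (G i)] (a : ∀ i, G i)
    (ha : ∀ i, ∀ n : ℤ, (a i) ^ n = 1 → n = 0) :
    Function.Injective (FreeGroup.lift (fun i => (CoprodI.of (a i) : CoprodI G))) := by
  have h1 : FreeGroup.lift (fun i => (CoprodI.of (a i) : CoprodI G)) =
      (CoprodI.lift (fun i => (CoprodI.of (M := G) (i := i)).comp
        (FreeGroup.lift (fun _ : Unit => a i)))).comp
        (@freeGroupEquivCoprodI ι).toMonoidHom := by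
    ext i
    simp
  rw [h1, MonoidHom.coe_comp]
  refine Function.Injective.comp ?_ (MulEquiv.injective freeGroupEquivCoprodI)
  apply coprod_lift_injective
  intro i
  rw [injective_iff_map_eq_one]
  intro x hx
  have h2 : x = FreeGroup.of () ^ (FreeGroup.freeGroupUnitEquivInt x) :=
    (FreeGroup.freeGroupUnitEquivInt.left_inv x).symm
  rw [h2, map_zpow, FreeGroup.lift_apply_of] at hx
  rw [h2, ha i _ hx, zpow_zero]

/-- `x ↦ x + 1` on the rationals -/
def shiftQ : Equiv.Perm ℚ := Equiv.addRight 1

/-- `x ↦ x / 2` on the rationals -/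
def halfQ : Equiv.Perm ℚ := (Equiv.mulRight₀ (2 : ℚ) (by norm_num)).symm

theorem halfQ_apply (x : ℚ) : halfQ x = x / 2 := by
  simp [halfQ, Equiv.mulRight₀, div_eq_mul_inv]

theorem half_shift : halfQ⁻¹ * shiftQ * halfQ = shiftQ ^ 2 := by
  ext x
  have h1 : ∀ y : ℚ, halfQ⁻¹ y = 2 * y := by
    intro y
    rw [Equiv.Perm.inv_eq_iff_eq, halfQ_apply]
    ring
  have h2 : ∀ y : ℚ, shiftQ y = y + 1 := fun y => rfl
  simp only [Equiv.Perm.mul_apply, pow_two, h1, h2, halfQ_apply]
  ring

theorem shift_order (n : ℤ) (h : shiftQ ^ n = 1) : n = 0 := by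
  have h1 : ∀ k : ℕ, (shiftQ ^ k) 0 = (k : ℚ) := by
    intro k
    induction k with
    | zero => simp
    | succ k ih =>
      rw [pow_succ', Equiv.Perm.mul_apply, ih]
      show (k : ℚ) + 1 = ((k + 1 : ℕ) : ℚ)
      push_cast
      ring
  have h2 : ∀ k : ℕ, shiftQ ^ k = 1 → k = 0 := by
    intro k hk
    have h3 := h1 k
    rw [hk, Equiv.Perm.one_apply] at h3
    exact_mod_cast h3.symm
  obtain ⟨k, rfl | rfl⟩ := n.eq_nat_or_neg
  · rw [zpow_natCast] at h
    rw [h2 k h]
    simp
  · rw [zpow_neg, zpow_natCast, inv_eq_one] at h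
    rw [h2 k h]
    simp

theorem half_order (n : ℤ) (h : halfQ ^ n = 1) : n = 0 := by
  have h1 : ∀ k : ℕ, (halfQ ^ k) 1 = (1 / 2 : ℚ) ^ k := by
    intro k
    induction k with
    | zero => simp
    | succ k ih =>
      rw [pow_succ', Equiv.Perm.mul_apply, ih, halfQ_apply, pow_succ]
      ring
  have h2 : ∀ k : ℕ, halfQ ^ k = 1 → k = 0 := by
    intro k hk
    have h3 := h1 k
    rw [hk, Equiv.Perm.one_apply] at h3
    by_contra hne
    have h4 : (1 / 2 : ℚ) ^ k < 1 := pow_lt_one₀ (by norm_num) (by norm_num) hne
    rw [← h3] at h4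
    exact lt_irrefl _ h4
  obtain ⟨k, rfl | rfl⟩ := n.eq_nat_or_neg
  · rw [zpow_natCast] at h
    rw [h2 k h]
    simp
  · rw [zpow_neg, zpow_natCast, inv_eq_one] at h
    rw [h2 k h]
    simp

universe u v

/-- the two factors of an amalgamated product -/
def Fam (G Q : Type u) : Bool → Type u
  | true => G
  | false => Q

instance Fam.group (G Q : Type u) [Group G] [Group Q] : ∀ b, Group (Fam G Q b)
  | true => inferInstanceAs (Group G)
  | false => inferInstanceAs (Group Q)

/-- the two maps of an amalgamated product -/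
def famMap {G Q : Type u} {H : Type v} [Group G] [Group Q] [Group H] (f : H →* G) (g : H →* Q) :
    ∀ b, H →* Fam G Q b
  | true => f
  | false => g

/-- Amalgamation: two groups with free families of the same index set. -/
theorem amalgam {G Q : Type u} {I : Type v} [Group G] [Group Q] (s : I → G) (a : I → Q)
    (hs : Function.Injective (FreeGroup.lift s)) (ha : Function.Injective (FreeGroup.lift a)) :
    ∃ (T : Type (max u v)) (_ : Group T) (f : G →* T) (g : Q →* T), Function.Injective f ∧
      Function.Injective g ∧ ∀ i, f (s i) = g (a i) := by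
  classical
  have hinj : ∀ b, Function.Injective (famMap (FreeGroup.lift s) (FreeGroup.lift a) b) := by
    intro b
    cases b
    · exact ha
    · exact hs
  refine ⟨Monoid.PushoutI (famMap (FreeGroup.lift s) (FreeGroup.lift a)), inferInstance,
    Monoid.PushoutI.of (φ := famMap (FreeGroup.lift s) (FreeGroup.lift a)) true,
    Monoid.PushoutI.of (φ := famMap (FreeGroup.lift s) (FreeGroup.lift a)) false,
    Monoid.PushoutI.of_injective hinj true, Monoid.PushoutI.of_injective hinj false, ?_⟩
  intro i
  have h1 := Monoid.PushoutI.of_apply_eq_base (famMap (FreeGroup.lift s) (FreeGroup.lift a)) true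
    (FreeGroup.of i)
  have h2 := Monoid.PushoutI.of_apply_eq_base (famMap (FreeGroup.lift s) (FreeGroup.lift a)) false
    (FreeGroup.of i)
  have h3 : famMap (FreeGroup.lift s) (FreeGroup.lift a) true (FreeGroup.of i) = s i :=
    FreeGroup.lift_apply_of
  have h4 : famMap (FreeGroup.lift s) (FreeGroup.lift a) false (FreeGroup.of i) = a i :=
    FreeGroup.lift_apply_of
  rw [h3] at h1
  rw [h4] at h2
  exact h1.trans h2.symm

/-- HNN extension: two free families of the same index set become conjugate. -/
theorem hnn_conj {T : Type u} {I : Type v} [Group T] (s b : I → T)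
    (hs : Function.Injective (FreeGroup.lift s)) (hb : Function.Injective (FreeGroup.lift b)) :
    ∃ (H : Type u) (_ : Group H) (f : T →* H) (t : H), Function.Injective f ∧
      ∀ i, t * f (s i) * t⁻¹ = f (b i) := by
  let eA : FreeGroup I ≃* (FreeGroup.lift s).range := MonoidHom.ofInjective hs
  let eB : FreeGroup I ≃* (FreeGroup.lift b).range := MonoidHom.ofInjective hb
  let φ : (FreeGroup.lift s).range ≃* (FreeGroup.lift b).range := eA.symm.trans eB
  refine ⟨HNNExtension T (FreeGroup.lift s).range (FreeGroup.lift b).range φ, inferInstance,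
    HNNExtension.of, HNNExtension.t, HNNExtension.of_injective φ, ?_⟩
  intro i
  have h1 := HNNExtension.t_mul_of (φ := φ) (eA (FreeGroup.of i))
  have h2 : φ (eA (FreeGroup.of i)) = eB (FreeGroup.of i) := by
    simp [φ]
  have h3 : ((eA (FreeGroup.of i) : (FreeGroup.lift s).range) : T) = s i := by
    show FreeGroup.lift s (FreeGroup.of i) = s i
    exact FreeGroup.lift_apply_of
  have h4 : ((eB (FreeGroup.of i) : (FreeGroup.lift b).range) : T) = b i := by
    show FreeGroup.lift b (FreeGroup.of i) = b i
    exact FreeGroup.lift_apply_of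
  rw [h2, h3, h4] at h1
  rw [h1, mul_assoc, mul_inv_cancel, mul_one]

/-- A group with a free family `s i` embeds in a group with an element `t` such that
`t (s i) t⁻¹` conjugates `s i` to its square, for all `i`. -/
theorem embed {G I : Type u} [Group G] (s : I → G)
    (hs : Function.Injective (FreeGroup.lift s)) :
    ∃ (H : Type u) (_ : Group H) (f : G →* H) (t : H), Function.Injective f ∧
      ∀ i, (t * f (s i) * t⁻¹)⁻¹ * f (s i) * (t * f (s i) * t⁻¹) = f (s i) ^ 2 := by
  let Q : Type u := CoprodI (fun _ : I => Equiv.Perm ℚ)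
  let a : I → Q := fun i => CoprodI.of (M := fun _ : I => Equiv.Perm ℚ) (i := i) shiftQ
  let b : I → Q := fun i => CoprodI.of (M := fun _ : I => Equiv.Perm ℚ) (i := i) halfQ
  have ha : Function.Injective (FreeGroup.lift a) :=
    free_of_infinite_order (G := fun _ : I => Equiv.Perm ℚ) (fun _ => shiftQ)
      (fun _ n h => shift_order n h)
  have hb : Function.Injective (FreeGroup.lift b) :=
    free_of_infinite_order (G := fun _ : I => Equiv.Perm ℚ) (fun _ => halfQ)
      (fun _ n h => half_order n h)
  have hab : ∀ i, (b i)⁻¹ * a i * b i = a i ^ 2 := by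
    intro i
    show (CoprodI.of (M := fun _ : I => Equiv.Perm ℚ) (i := i) halfQ)⁻¹ *
      CoprodI.of (M := fun _ : I => Equiv.Perm ℚ) (i := i) shiftQ *
      CoprodI.of (M := fun _ : I => Equiv.Perm ℚ) (i := i) halfQ =
      (CoprodI.of (M := fun _ : I => Equiv.Perm ℚ) (i := i) shiftQ) ^ 2
    rw [← map_inv, ← map_mul, ← map_mul, half_shift, map_pow]
  obtain ⟨T, _, f, g, hf, hg, hfg⟩ := amalgam s a hs ha
  have hsT : Function.Injective (FreeGroup.lift (fun i => f (s i))) := by
    have h1 : FreeGroup.lift (fun i => f (s i)) = f.comp (FreeGroup.lift s) := by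
      ext i
      simp
    rw [h1]
    exact hf.comp hs
  have hbT : Function.Injective (FreeGroup.lift (fun i => g (b i))) := by
    have h1 : FreeGroup.lift (fun i => g (b i)) = g.comp (FreeGroup.lift b) := by
      ext i
      simp
    rw [h1]
    exact hg.comp hb
  obtain ⟨H, _, h, t, hh, ht⟩ := hnn_conj (fun i => f (s i)) (fun i => g (b i)) hsT hbT
  refine ⟨H, inferInstance, h.comp f, t, hh.comp hf, ?_⟩
  intro i
  simp only [MonoidHom.comp_apply]
  rw [ht i, ← map_inv, ← map_mul, ← map_mul, ← map_pow]
  congr 1
  rw [hfg i, ← map_inv, ← map_mul, ← map_mul, hab i, map_pow]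

end Pool.Agent.WOne
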