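import Mathlib
import Pool.Agent.WOne.Embed

/-!
A free family of parabolic elements of `SL₂(ℤ)`, each of which satisfies the braid relation with
one fixed parabolic element, and the corresponding embedding.
-/

set_option autoImplicit false

open Matrix Pointwise

namespace Pool.Agent.WOne

/-- `Equiv.Perm` of the nonzero vectors: the map `(x, y) ↦ (x + z q, y + q)`, `q = x - z y`. -/
def parPerm (z : ℤ) : Equiv.Perm {w : ℤ × ℤ // w ≠ 0} where
  toFun w := ⟨(w.1.1 + z * (w.1.1 - z * w.1.2), w.1.2 + (w.1.1 - z * w.1.2)), by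
    intro h
    apply w.2
    rw [Prod.ext_iff] at h ⊢
    simp only [Prod.fst_zero, Prod.snd_zero] at h ⊢
    obtain ⟨h1, h2⟩ := h
    have h3 : w.1.1 - z * w.1.2 = 0 := by linear_combination h1 - z * h2
    constructor
    · linear_combination h1 - z * h3
    · linear_combination h2 - h3⟩
  invFun w := ⟨(w.1.1 - z * (w.1.1 - z * w.1.2), w.1.2 - (w.1.1 - z * w.1.2)), by
    intro h
    apply w.2
    rw [Prod.ext_iff] at h ⊢
    simp only [Prod.fst_zero, Prod.snd_zero] at h ⊢
    obtain ⟨h1, h2⟩ := h
    have h3 : w.1.1 - z * w.1.2 = 0 := by linear_combination h1 - z * h2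
    constructor
    · linear_combination h1 + z * h3
    · linear_combination h2 + h3⟩
  left_inv w := by
    apply Subtype.ext
    apply Prod.ext
    · simp only
      ring
    · simp only
      ring
  right_inv w := by
    apply Subtype.ext
    apply Prod.ext
    · simp only
      ring
    · simp only
      ring

/-- `(x, y) ↦ (x - y, y)` -/
def hubPerm : Equiv.Perm {w : ℤ × ℤ // w ≠ 0} where
  toFun w := ⟨(w.1.1 - w.1.2, w.1.2), by
    intro h
    apply w.2
    rw [Prod.ext_iff] at h ⊢
    simp only [Prod.fst_zero, Prod.snd_zero] at h ⊢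
    obtain ⟨h1, h2⟩ := h
    constructor
    · linear_combination h1 + h2
    · exact h2⟩
  invFun w := ⟨(w.1.1 + w.1.2, w.1.2), by
    intro h
    apply w.2
    rw [Prod.ext_iff] at h ⊢
    simp only [Prod.fst_zero, Prod.snd_zero] at h ⊢
    obtain ⟨h1, h2⟩ := h
    constructor
    · linear_combination h1 - h2
    · exact h2⟩
  left_inv w := by
    apply Subtype.ext
    apply Prod.ext
    · simp only
      ring
    · rfl
  right_inv w := by
    apply Subtype.ext
    apply Prod.ext
    · simp only
      ring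
    · rfl

theorem hub_braid (z : ℤ) : hubPerm * parPerm z * hubPerm = parPerm z * hubPerm * parPerm z := by
  ext w
  · simp only [Equiv.Perm.mul_apply, hubPerm, parPerm, Equiv.coe_fn_mk]
    ring
  · simp only [Equiv.Perm.mul_apply, hubPerm, parPerm, Equiv.coe_fn_mk]
    ring

/-- the ping-pong set of `parPerm (4 j)` -/
def setX (j : ℤ) : Set {w : ℤ × ℤ // w ≠ 0} :=
  {w | (w.1.1 - 4 * j * w.1.2) ^ 2 ≤ 2 * w.1.2 * (w.1.1 - 4 * j * w.1.2)}

/-- the ping-pong set of the inverse of `parPerm (4 j)` -/
def setY (j : ℤ) : Set {w : ℤ × ℤ // w ≠ 0} :=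
  {w | 2 * w.1.2 * (w.1.1 - 4 * j * w.1.2) < -(w.1.1 - 4 * j * w.1.2) ^ 2}

theorem free_par : Function.Injective (FreeGroup.lift (fun j : ℤ => parPerm (4 * j))) := by
  have hne : ∀ w : {w : ℤ × ℤ // w ≠ 0}, w.1.2 = 0 → w.1.1 ≠ 0 := by
    intro w h h'
    exact w.2 (Prod.ext h' h)
  apply FreeGroup.injective_lift_of_ping_pong (fun j : ℤ => parPerm (4 * j)) setX setY
  · intro j
    refine ⟨⟨(4 * j, 1), ?_⟩, ?_⟩
    · intro h
      have := congrArg Prod.snd h
      simp at this
    · simp [setX]
  · intro i j hij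
    rw [Function.onFun, Set.disjoint_left]
    intro w hi hj
    simp only [setX, Set.mem_ofPred_eq] at hi hj
    have h1 : 1 ≤ (i - j) ^ 2 := by
      have : i - j ≠ 0 := sub_ne_zero.mpr hij
      have := sq_pos_of_ne_zero this
      omega
    have h2 : w.1.2 = 0 := by
      by_contra hy
      have h3 : 0 < w.1.2 ^ 2 := by positivity
      nlinarith [sq_nonneg (2 * w.1.1 - 4 * i * w.1.2 - 4 * j * w.1.2 - 2 * w.1.2),
        mul_le_mul_of_nonneg_right h1 h3.le]
    have h3 := hne w h2
    have h4 : 0 < w.1.1 ^ 2 := by positivity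
    rw [h2] at hi
    nlinarith
  · intro i j hij
    rw [Function.onFun, Set.disjoint_left]
    intro w hi hj
    simp only [setY, Set.mem_ofPred_eq] at hi hj
    have h1 : 1 ≤ (i - j) ^ 2 := by
      have : i - j ≠ 0 := sub_ne_zero.mpr hij
      have := sq_pos_of_ne_zero this
      omega
    have h2 : w.1.2 = 0 := by
      by_contra hy
      have h3 : 0 < w.1.2 ^ 2 := by positivity
      nlinarith [sq_nonneg (2 * w.1.1 - 4 * i * w.1.2 - 4 * j * w.1.2 + 2 * w.1.2),
        mul_le_mul_of_nonneg_right h1 h3.le]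
    have h3 := hne w h2
    have h4 : 0 < w.1.1 ^ 2 := by positivity
    rw [h2] at hi
    nlinarith
  · intro i j
    rw [Set.disjoint_left]
    intro w hi hj
    simp only [setX, setY, Set.mem_ofPred_eq] at hi hj
    by_cases hij : i = j
    · subst hij
      nlinarith [sq_nonneg (w.1.1 - 4 * i * w.1.2)]
    have h1 : 1 ≤ (i - j) ^ 2 := by
      have : i - j ≠ 0 := sub_ne_zero.mpr hij
      have := sq_pos_of_ne_zero this
      omega
    have h2 : w.1.2 = 0 := by
      by_contra hy
      have h3 : 0 < w.1.2 ^ 2 := by positivity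
      nlinarith [sq_nonneg (2 * w.1.1 - 4 * i * w.1.2 - 4 * j * w.1.2),
        mul_le_mul_of_nonneg_right h1 h3.le]
    have h3 := hne w h2
    have h4 : 0 < w.1.1 ^ 2 := by positivity
    rw [h2] at hi
    nlinarith
  · intro j w hw
    obtain ⟨w', hw', rfl⟩ := hw
    simp only [setY, Set.mem_compl_iff, Set.mem_ofPred_eq, not_lt] at hw'
    simp only [setX, Set.mem_ofPred_eq, Equiv.Perm.smul_def, parPerm, Equiv.coe_fn_mk]
    nlinarith
  · intro j w hw
    obtain ⟨w', hw', rfl⟩ := hw
    simp only [setX, Set.mem_compl_iff, Set.mem_ofPred_eq, not_le] at hw'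
    change (parPerm (4 * j)).symm w' ∈ setY j
    simp only [setY, Set.mem_ofPred_eq, parPerm, Equiv.coe_fn_symm_mk]
    nlinarith

universe u

/-- A group with a countable free family `s i` embeds in a group with an element `m` which
satisfies the braid relation with every `s i`. -/
theorem braid_embed {G I : Type u} [Group G] [Countable I] (s : I → G)
    (hs : Function.Injective (FreeGroup.lift s)) :
    ∃ (H : Type u) (_ : Group H) (f : G →* H) (m : H), Function.Injective f ∧
      ∀ i, m * f (s i) * m = f (s i) * m * f (s i) := by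
  obtain ⟨e, he⟩ := exists_injective_nat I
  let Q : Type u := ULift.{u} (Equiv.Perm {w : ℤ × ℤ // w ≠ 0})
  let up : Equiv.Perm {w : ℤ × ℤ // w ≠ 0} →* Q := MulEquiv.ulift.symm.toMonoidHom
  have hup : Function.Injective up := MulEquiv.ulift.symm.injective
  let a : I → Q := fun i => up (parPerm (4 * (e i : ℤ)))
  have ha : Function.Injective (FreeGroup.lift a) := by
    have h1 : FreeGroup.lift a = (up.comp (FreeGroup.lift (fun j : ℤ => parPerm (4 * j)))).comp
        (FreeGroup.map (fun i : I => (e i : ℤ))) := by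
      refine FreeGroup.ext_hom _ _ fun i => ?_
      rw [FreeGroup.lift_apply_of, MonoidHom.comp_apply, FreeGroup.map.of, MonoidHom.comp_apply,
        FreeGroup.lift_apply_of]
    rw [h1, MonoidHom.coe_comp, MonoidHom.coe_comp]
    refine (hup.comp free_par).comp ?_
    exact FreeGroup.map_injective (fun i j hij => he (by exact_mod_cast hij))
  obtain ⟨T, _, f, g, hf, hg, hfg⟩ := amalgam s a hs ha
  refine ⟨T, inferInstance, f, g (up hubPerm), hf, ?_⟩
  intro i
  rw [hfg i]
  simp only [← map_mul, a]
  rw [hub_braid]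

end Pool.Agent.WOne
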